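import Mathlib
import Pool.Agent.X1.WeyE

/-!
# Weyl sums at almost all elements of a real number field

Let `α_1, …, α_d` be real algebraic numbers with `1, α_1, …, α_d` linearly independent over the
rationals (for example, together with `1`, a basis of a real number field).  For almost all of the
numbers `t = s + a_1 α_1 + … + a_d α_d`, `0 ≤ a_i < B`, the Weyl sums with leading coefficient `t`
satisfy square root bounds (with arbitrary bounded coefficients), and the bound `N^(3/4)` uniformly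
in the linear coefficient; in particular the inequality of `H_k(1/k)`.
-/

set_option autoImplicit false

namespace Pool.Agent.Results.MP_3b0be2_nt.AlmostAllFieldElements

open Finset Filter
open Pool.Agent.X1.SchP (E Ws Wx weylA weylB norm_E)

/-- `∑_{n=1}^N c_n e(t n^k + ξ n)` -/
noncomputable def S (c : ℕ → ℂ) (k N : ℕ) (t ξ : ℝ) : ℂ :=
  ∑ n ∈ Finset.Icc 1 N, c n *
    Complex.exp (2 * Real.pi * Complex.I * ((t * (n : ℝ) ^ k + ξ * n : ℝ) : ℂ))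

/-- the inequality of `H_k(1/k)` with the constant `1`, for all `q` -/
def Ineq (k N : ℕ) (ε t ξ : ℝ) : Prop := ∀ q : ℕ, 1 ≤ q →
  ‖S (fun _ => 1) k N t ξ‖ ≤
    (N : ℝ) ^ (1 + ε) * (1 / (q : ℝ) + 1 / N + q / (N : ℝ) ^ k) ^ (1 / (k : ℝ))

/-- the numbers `s + a_1 α_1 + … + a_d α_d` -/
noncomputable def elt {d : ℕ} (α : Fin d → ℝ) (s : ℝ) (a : Fin d → ℕ) : ℝ :=
  s + ∑ i, (a i : ℝ) * α i

lemma ind_int {d : ℕ} (α : Fin d → ℝ)
    (hind : LinearIndependent ℚ (Fin.cons 1 α : Fin (d + 1) → ℝ)) (y0 : ℤ) (y : Fin d → ℤ)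
    (h : (y0 : ℝ) + ∑ i, (y i : ℝ) * α i = 0) : y0 = 0 ∧ y = 0 := by
  have h1 := Fintype.linearIndependent_iff.1 hind
    (Fin.cons (y0 : ℚ) (fun i => (y i : ℚ))) (by
      rw [Fin.sum_univ_succ]
      simp only [Fin.cons_zero, Fin.cons_succ, Rat.smul_def]
      push_cast
      rw [mul_one]
      exact h)
  refine ⟨?_, ?_⟩
  · have := h1 0
    rw [Fin.cons_zero] at this
    exact_mod_cast this
  · funext i
    have := h1 i.succ
    rw [Fin.cons_succ] at this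
    exact_mod_cast this

/-- the coefficients without the term `n = 0` -/
noncomputable def cut (c : ℕ → ℂ) (n : ℕ) : ℂ := if n = 0 then 0 else c n

lemma norm_cut (c : ℕ → ℂ) (hc : ∀ n, ‖c n‖ ≤ 1) (n : ℕ) : ‖cut c n‖ ≤ 1 := by
  unfold cut
  split_ifs
  · simp
  · exact hc n

lemma S_eq (c : ℕ → ℂ) (k N : ℕ) (t ξ : ℝ) : S c k N t ξ = Wx (cut c) k N t ξ := by
  unfold S Wx
  rw [Finset.range_eq_Ico, Finset.sum_eq_sum_Ico_succ_bot (Nat.succ_pos N)]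
  have h0 : cut c 0 = 0 := by simp [cut]
  rw [h0, zero_mul, zero_add]
  have h1 : Ico (0 + 1) (N + 1) = Icc 1 N := by
    ext n; rw [mem_Ico, mem_Icc]; omega
  rw [h1]
  apply Finset.sum_congr rfl
  intro n hn
  rw [mem_Icc] at hn
  have h2 : cut c n = c n := by
    unfold cut
    rw [if_neg (by omega)]
  rw [h2]
  unfold E
  congr 2
  push_cast
  ring

lemma Wx_zero (c : ℕ → ℂ) (k N : ℕ) (t ξ : ℝ) :
    Wx c k N t ξ = Ws (fun n => c n * E (n * ξ)) k N t := by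
  unfold Wx Ws
  apply Finset.sum_congr rfl
  intro n _
  rw [mul_assoc, ← Pool.Agent.X1.SchP.E_add]
  congr 2
  ring

/-- the last step -/
lemma finish (k : ℕ) (hk : 1 ≤ k) (B N : ℕ) (ρ ε t ξ M : ℝ) (hε : 0 < ε)
    (hN1 : 1 ≤ N) (hNB : (B : ℝ) ^ ρ ≤ N)
    (hB : 2 * (B : ℝ) ^ (ρ * ε / 2) ≤ ((B : ℝ) ^ ρ) ^ ε) (hM : M ≤ 1 - 1 / (k : ℝ))
    (hS : ‖S (fun _ => 1) k N t ξ‖ ≤ 2 * (B : ℝ) ^ (ρ * ε / 2) * (N : ℝ) ^ M) :
    Ineq k N ε t ξ := by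
  intro q hq
  have hNR : (1 : ℝ) ≤ N := by exact_mod_cast hN1
  have hN0 : (0 : ℝ) < N := by linarith
  have hq0 : (0 : ℝ) < q := by exact_mod_cast hq
  have hk0 : (0 : ℝ) < k := by exact_mod_cast hk
  refine hS.trans ?_
  have h1 : 2 * (B : ℝ) ^ (ρ * ε / 2) ≤ (N : ℝ) ^ ε :=
    hB.trans (Real.rpow_le_rpow (by positivity) hNB hε.le)
  have h2 : (N : ℝ) ^ (-(1 / (k : ℝ))) ≤
      (1 / (q : ℝ) + 1 / N + q / (N : ℝ) ^ k) ^ (1 / (k : ℝ)) := by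
    have h3 : (N : ℝ) ^ (-(1 / (k : ℝ))) = (1 / (N : ℝ)) ^ (1 / (k : ℝ)) := by
      rw [one_div (N : ℝ), Real.inv_rpow hN0.le, Real.rpow_neg hN0.le]
    rw [h3]
    apply Real.rpow_le_rpow (by positivity) _ (by positivity)
    have h4 : 0 < 1 / (q : ℝ) := by positivity
    have h5 : 0 < (q : ℝ) / (N : ℝ) ^ k := by positivity
    linarith
  calc 2 * (B : ℝ) ^ (ρ * ε / 2) * (N : ℝ) ^ M
      ≤ (N : ℝ) ^ ε * (N : ℝ) ^ (1 - 1 / (k : ℝ)) :=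
        mul_le_mul h1 (Real.rpow_le_rpow_of_exponent_le hNR hM) (by positivity) (by positivity)
    _ = (N : ℝ) ^ (1 + ε) * (N : ℝ) ^ (-(1 / (k : ℝ))) := by
        rw [← Real.rpow_add hN0, ← Real.rpow_add hN0]
        congr 1
        ring
    _ ≤ _ := mul_le_mul_of_nonneg_left h2 (by positivity)

lemma threshold (ρ ε : ℝ) (hρ : 0 < ρ) (hε : 0 < ε) : ∀ᶠ B : ℕ in atTop,
    2 * (B : ℝ) ^ (ρ * ε / 2) ≤ ((B : ℝ) ^ ρ) ^ ε := by
  have h1 : Tendsto (fun B : ℕ => (B : ℝ) ^ (ρ * ε / 2)) atTop atTop :=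
    (tendsto_rpow_atTop (by positivity)).comp tendsto_natCast_atTop_atTop
  filter_upwards [h1.eventually (eventually_ge_atTop 2), eventually_ge_atTop 1] with B hB hB1
  have hB0 : (0 : ℝ) < B := by exact_mod_cast hB1
  rw [← Real.rpow_mul hB0.le]
  have h2 : (B : ℝ) ^ (ρ * ε) = (B : ℝ) ^ (ρ * ε / 2) * (B : ℝ) ^ (ρ * ε / 2) := by
    rw [← Real.rpow_add hB0]; congr 1; ring
  rw [h2]
  exact mul_le_mul_of_nonneg_right hB (by positivity)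

open Classical in
/-- **Weyl sums at almost all elements.** Let `d ≥ 1` and let `α_1, …, α_d` be real algebraic numbers
with `1, α_1, …, α_d` linearly independent over `ℚ`; `t_a = s + a_1 α_1 + … + a_d α_d`.

(1) `k ≥ 2`, `δ, A > 0`: for all `B ≥ B₀`, all coefficients `|c_n| ≤ 1` and all real `s`, for all but
at most `B^(d - δ)` of the `a ∈ [0, B)^d`: `|∑_{n ≤ N} c_n e(t_a n^k)| ≤ B^δ (√N + √(N^k / B^d))` for
all `1 ≤ N ≤ B^A`.

(2) `k ≥ 3`: the same with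
`|∑_{n ≤ N} c_n e(t_a n^k + ξ n)| ≤ B^δ (N^(3/4) + (N^(k+1) / B^d)^(1/4))` for all real `ξ` at once.

(3) `k ≥ 4`, `ε, ρ > 0`: there are `δ > 0` and `B₀` such that for all `B ≥ B₀` and all real `s`, for
all but at most `B^(d - δ)` of the `a ∈ [0, B)^d` the inequality of `H_k(1/k)` holds at `t_a` with the
constant `1`, for all `N ≥ B^ρ` with `N^(k-2) ≤ B^d`, all real `ξ` and all `q`.

(4) `k ≥ 2`: for each real `ξ` the same for all `N ≥ B^ρ` with `N^(k-1) ≤ B^d`. -/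
theorem result {d : ℕ} (hd : 1 ≤ d) (α : Fin d → ℝ) (halg : ∀ i, IsAlgebraic ℚ (α i))
    (hind : LinearIndependent ℚ (Fin.cons 1 α : Fin (d + 1) → ℝ)) :
    (∀ (k : ℕ) (δ A : ℝ), 2 ≤ k → 0 < δ → 0 < A → ∃ B₀ : ℕ, ∀ B : ℕ, B₀ ≤ B →
      ∀ c : ℕ → ℂ, (∀ n, ‖c n‖ ≤ 1) → ∀ s : ℝ,
      (((Fintype.piFinset fun _ : Fin d => range B).filter fun a => ∃ N : ℕ, 1 ≤ N ∧
        (N : ℝ) ≤ (B : ℝ) ^ A ∧ (B : ℝ) ^ δ * (Real.sqrt N + Real.sqrt ((N : ℝ) ^ k / (B : ℝ) ^ d)) <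
          ‖S c k N (elt α s a) 0‖).card : ℝ) ≤ (B : ℝ) ^ ((d : ℝ) - δ)) ∧
    (∀ (k : ℕ) (δ A : ℝ), 3 ≤ k → 0 < δ → 0 < A → ∃ B₀ : ℕ, ∀ B : ℕ, B₀ ≤ B →
      ∀ c : ℕ → ℂ, (∀ n, ‖c n‖ ≤ 1) → ∀ s : ℝ,
      (((Fintype.piFinset fun _ : Fin d => range B).filter fun a => ∃ N : ℕ, 1 ≤ N ∧
        (N : ℝ) ≤ (B : ℝ) ^ A ∧ ∃ ξ : ℝ, (B : ℝ) ^ δ * ((N : ℝ) ^ (3 / 4 : ℝ) +
          ((N : ℝ) ^ (k + 1) / (B : ℝ) ^ d) ^ (1 / 4 : ℝ)) <
            ‖S c k N (elt α s a) ξ‖).card : ℝ) ≤ (B : ℝ) ^ ((d : ℝ) - δ)) ∧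
    (∀ (k : ℕ) (ε ρ : ℝ), 4 ≤ k → 0 < ε → 0 < ρ → ∃ δ : ℝ, 0 < δ ∧ ∃ B₀ : ℕ, ∀ B : ℕ, B₀ ≤ B →
      ∀ s : ℝ, (((Fintype.piFinset fun _ : Fin d => range B).filter fun a => ¬ ∀ N : ℕ, 1 ≤ N →
        (B : ℝ) ^ ρ ≤ N → N ^ (k - 2) ≤ B ^ d → ∀ ξ : ℝ, Ineq k N ε (elt α s a) ξ).card : ℝ) ≤
          (B : ℝ) ^ ((d : ℝ) - δ)) ∧
    (∀ (k : ℕ) (ε ρ : ℝ), 2 ≤ k → 0 < ε → 0 < ρ → ∃ δ : ℝ, 0 < δ ∧ ∃ B₀ : ℕ, ∀ B : ℕ, B₀ ≤ B →
      ∀ s ξ : ℝ, (((Fintype.piFinset fun _ : Fin d => range B).filter fun a => ¬ ∀ N : ℕ, 1 ≤ N →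
        (B : ℝ) ^ ρ ≤ N → N ^ (k - 1) ≤ B ^ d → Ineq k N ε (elt α s a) ξ).card : ℝ) ≤
          (B : ℝ) ^ ((d : ℝ) - δ)) := by
  have hii := ind_int α hind
  have part1 : ∀ (k : ℕ) (δ A : ℝ), 2 ≤ k → 0 < δ → 0 < A → ∃ B₀ : ℕ, ∀ B : ℕ, B₀ ≤ B →
      ∀ c : ℕ → ℂ, (∀ n, ‖c n‖ ≤ 1) → ∀ s : ℝ,
      (((Fintype.piFinset fun _ : Fin d => range B).filter fun a => ∃ N : ℕ, 1 ≤ N ∧
        (N : ℝ) ≤ (B : ℝ) ^ A ∧ (B : ℝ) ^ δ * (Real.sqrt N + Real.sqrt ((N : ℝ) ^ k / (B : ℝ) ^ d)) <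
          ‖S c k N (elt α s a) 0‖).card : ℝ) ≤ (B : ℝ) ^ ((d : ℝ) - δ) := by
    intro k δ A hk hδ hA
    obtain ⟨B₀, hB₀⟩ := weylA α halg hii k hk δ A hδ hA.le
    refine ⟨B₀, fun B hB c hc s => ?_⟩
    refine le_trans ?_ (hB₀ B hB (fun n => cut c n * E (n * 0)) (fun n => by
      rw [norm_mul, norm_E, mul_one]; exact norm_cut c hc n) s)
    refine Nat.cast_le.2 (Finset.card_le_card ?_)
    intro a ha
    rw [mem_filter] at ha ⊢
    obtain ⟨ha1, N, hN1, hN2, hN3⟩ := ha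
    refine ⟨ha1, N, hN1, hN2, ?_⟩
    rw [← Wx_zero, ← S_eq]
    exact hN3
  have part2 : ∀ (k : ℕ) (δ A : ℝ), 3 ≤ k → 0 < δ → 0 < A → ∃ B₀ : ℕ, ∀ B : ℕ, B₀ ≤ B →
      ∀ c : ℕ → ℂ, (∀ n, ‖c n‖ ≤ 1) → ∀ s : ℝ,
      (((Fintype.piFinset fun _ : Fin d => range B).filter fun a => ∃ N : ℕ, 1 ≤ N ∧
        (N : ℝ) ≤ (B : ℝ) ^ A ∧ ∃ ξ : ℝ, (B : ℝ) ^ δ * ((N : ℝ) ^ (3 / 4 : ℝ) +
          ((N : ℝ) ^ (k + 1) / (B : ℝ) ^ d) ^ (1 / 4 : ℝ)) <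
            ‖S c k N (elt α s a) ξ‖).card : ℝ) ≤ (B : ℝ) ^ ((d : ℝ) - δ) := by
    intro k δ A hk hδ hA
    obtain ⟨B₀, hB₀⟩ := weylB α halg hii k hk δ A hδ hA.le
    refine ⟨B₀, fun B hB c hc s => ?_⟩
    refine le_trans ?_ (hB₀ B hB (cut c) (norm_cut c hc) s)
    refine Nat.cast_le.2 (Finset.card_le_card ?_)
    intro a ha
    rw [mem_filter] at ha ⊢
    obtain ⟨ha1, N, hN1, hN2, ξ, hN3⟩ := ha
    refine ⟨ha1, N, hN1, hN2, ξ, ?_⟩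
    rw [← S_eq]
    exact hN3
  refine ⟨part1, part2, ?_, ?_⟩
  · intro k ε ρ hk hε hρ
    have hd0 : (0 : ℝ) < d := by exact_mod_cast hd
    refine ⟨ρ * ε / 2, by positivity, ?_⟩
    obtain ⟨B₀, hB₀⟩ := part2 k (ρ * ε / 2) d (by omega) (by positivity) hd0
    obtain ⟨B₁, hB₁⟩ := eventually_atTop.1 (threshold ρ ε hρ hε)
    refine ⟨max (max B₀ B₁) 1, fun B hB s => ?_⟩
    have hB0' := (le_max_left _ _).trans ((le_max_left _ _).trans hB)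
    have hB1' := (le_max_right _ _).trans ((le_max_left _ _).trans hB)
    have hB1 : 1 ≤ B := (le_max_right _ _).trans hB
    have hBR : (1 : ℝ) ≤ B := by exact_mod_cast hB1
    have hB0 : (0 : ℝ) < B := by linarith
    refine le_trans ?_ (hB₀ B hB0' (fun _ => 1) (fun _ => by simp) s)
    refine Nat.cast_le.2 (Finset.card_le_card ?_)
    intro a ha
    rw [mem_filter] at ha ⊢
    refine ⟨ha.1, ?_⟩
    by_contra hcon
    push Not at hcon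
    apply ha.2
    intro N hN1 hNB hNk ξ
    have hNR : (1 : ℝ) ≤ N := by exact_mod_cast hN1
    have hN0 : (0 : ℝ) < N := by linarith
    have h1 : (N : ℝ) ≤ (B : ℝ) ^ (d : ℝ) := by
      rw [Real.rpow_natCast]
      have h2 : N ≤ B ^ d := by
        calc N = N ^ 1 := (pow_one N).symm
          _ ≤ N ^ (k - 2) := Nat.pow_le_pow_right hN1 (by omega)
          _ ≤ B ^ d := hNk
      exact_mod_cast h2
    have h3 := hcon N hN1 h1 ξ
    have h4 : ((N : ℝ) ^ (k + 1) / (B : ℝ) ^ d) ^ (1 / 4 : ℝ) ≤ (N : ℝ) ^ (3 / 4 : ℝ) := by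
      have h5 : (N : ℝ) ^ (k + 1) / (B : ℝ) ^ d ≤ (N : ℝ) ^ 3 := by
        rw [div_le_iff₀ (by positivity)]
        have h6 : (N : ℝ) ^ (k + 1) = (N : ℝ) ^ 3 * (N : ℝ) ^ (k - 2) := by
          rw [← pow_add]; congr 1; omega
        rw [h6]
        apply mul_le_mul_of_nonneg_left _ (by positivity)
        exact_mod_cast hNk
      calc ((N : ℝ) ^ (k + 1) / (B : ℝ) ^ d) ^ (1 / 4 : ℝ) ≤ ((N : ℝ) ^ 3) ^ (1 / 4 : ℝ) :=
            Real.rpow_le_rpow (by positivity) h5 (by norm_num)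
        _ = (N : ℝ) ^ (3 / 4 : ℝ) := by
            rw [← Real.rpow_natCast (N : ℝ) 3, ← Real.rpow_mul hN0.le]
            norm_num
    apply finish k (by omega) B N ρ ε _ ξ (3 / 4) hε hN1 hNB (hB₁ B hB1')
    · have hk4 : (4 : ℝ) ≤ k := by exact_mod_cast hk
      have : 1 / (k : ℝ) ≤ 1 / 4 := one_div_le_one_div_of_le (by norm_num) hk4
      linarith
    · refine h3.trans ?_
      calc (B : ℝ) ^ (ρ * ε / 2) * ((N : ℝ) ^ (3 / 4 : ℝ) +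
            ((N : ℝ) ^ (k + 1) / (B : ℝ) ^ d) ^ (1 / 4 : ℝ))
          ≤ (B : ℝ) ^ (ρ * ε / 2) * ((N : ℝ) ^ (3 / 4 : ℝ) + (N : ℝ) ^ (3 / 4 : ℝ)) :=
            mul_le_mul_of_nonneg_left (by linarith) (by positivity)
        _ = 2 * (B : ℝ) ^ (ρ * ε / 2) * (N : ℝ) ^ (3 / 4 : ℝ) := by ring
  · intro k ε ρ hk hε hρ
    have hd0 : (0 : ℝ) < d := by exact_mod_cast hd
    refine ⟨ρ * ε / 2, by positivity, ?_⟩
    obtain ⟨B₀, hB₀⟩ := part1 k (ρ * ε / 2) d hk (by positivity) hd0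
    obtain ⟨B₁, hB₁⟩ := eventually_atTop.1 (threshold ρ ε hρ hε)
    refine ⟨max (max B₀ B₁) 1, fun B hB s ξ => ?_⟩
    have hB0' := (le_max_left _ _).trans ((le_max_left _ _).trans hB)
    have hB1' := (le_max_right _ _).trans ((le_max_left _ _).trans hB)
    have hB1 : 1 ≤ B := (le_max_right _ _).trans hB
    have hBR : (1 : ℝ) ≤ B := by exact_mod_cast hB1
    have hB0 : (0 : ℝ) < B := by linarith
    refine le_trans ?_ (hB₀ B hB0' (fun n => E (n * ξ)) (fun _ => (norm_E _).le) s)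
    refine Nat.cast_le.2 (Finset.card_le_card ?_)
    intro a ha
    rw [mem_filter] at ha ⊢
    refine ⟨ha.1, ?_⟩
    by_contra hcon
    push Not at hcon
    apply ha.2
    intro N hN1 hNB hNk
    have hNR : (1 : ℝ) ≤ N := by exact_mod_cast hN1
    have hN0 : (0 : ℝ) < N := by linarith
    have h1 : (N : ℝ) ≤ (B : ℝ) ^ (d : ℝ) := by
      rw [Real.rpow_natCast]
      have h2 : N ≤ B ^ d := by
        calc N = N ^ 1 := (pow_one N).symm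
          _ ≤ N ^ (k - 1) := Nat.pow_le_pow_right hN1 (by omega)
          _ ≤ B ^ d := hNk
      exact_mod_cast h2
    have h3 := hcon N hN1 h1
    have hSS : S (fun n => E (n * ξ)) k N (elt α s a) 0 = S (fun _ => 1) k N (elt α s a) ξ := by
      unfold S
      apply Finset.sum_congr rfl
      intro n _
      unfold E
      rw [one_mul, ← Complex.exp_add]
      congr 1
      push_cast
      ring
    rw [hSS] at h3
    have h4 : Real.sqrt ((N : ℝ) ^ k / (B : ℝ) ^ d) ≤ Real.sqrt N := by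
      apply Real.sqrt_le_sqrt
      rw [div_le_iff₀ (by positivity)]
      have h6 : (N : ℝ) ^ k = (N : ℝ) * (N : ℝ) ^ (k - 1) := by
        rw [← pow_succ']; congr 1; omega
      rw [h6]
      apply mul_le_mul_of_nonneg_left _ hN0.le
      exact_mod_cast hNk
    apply finish k (by omega) B N ρ ε _ ξ (1 / 2) hε hN1 hNB (hB₁ B hB1')
    · have hk4 : (2 : ℝ) ≤ k := by exact_mod_cast hk
      have : 1 / (k : ℝ) ≤ 1 / 2 := one_div_le_one_div_of_le (by norm_num) hk4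
      linarith
    · refine h3.trans ?_
      rw [← Real.sqrt_eq_rpow]
      calc (B : ℝ) ^ (ρ * ε / 2) * (Real.sqrt N + Real.sqrt ((N : ℝ) ^ k / (B : ℝ) ^ d))
          ≤ (B : ℝ) ^ (ρ * ε / 2) * (Real.sqrt N + Real.sqrt N) :=
            mul_le_mul_of_nonneg_left (by linarith) (by positivity)
        _ = 2 * (B : ℝ) ^ (ρ * ε / 2) * Real.sqrt N := by ring

end Pool.Agent.Results.MP_3b0be2_nt.AlmostAllFieldElements
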