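import Pool.Agent.Y951.MW.Final

/-!
# Montgomery's bound for almost all leading coefficients modulo every prime

For every prime `q ≤ N^(2 - 4η)`, `η ≤ 1/4`, and every bounded sequence of coefficients, the bound of
quality `q^(-η)` holds for all but at most `2 q^(2η) N^(-2ε)` leading coefficients `b` modulo `q`,
simultaneously for all lower-order terms and all subintervals.
-/

set_option autoImplicit false

namespace Pool.Agent.Results.MP_3b0be2_nt.EachPrimeModulus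

open Polynomial

/-- **(1)** Let `k ≥ 2`, `0 ≤ η ≤ 1/4`, `ε > 0`. For all `N ≥ N₀(k, η, ε)`, all primes
`q ≤ N^(2 - 4η)` and all complex numbers `c n` with `|c n| ≤ 1`, for all residues `b` modulo `q` with
at most `2 min(q, N)^(2η) N^(-2ε)` exceptions
`|∑_{u<n≤v} c n e((b n^k + h(n))/q + ξ n)| ≤ N^(1+ε) max(1/q, 1/N)^η`
for ALL integer polynomials `h` of degree less than `k`, all real `ξ` and all `v ≤ N`, `u`.

**(2)** Let `k ≥ 4`, `ε > 0`. For all `N ≥ N₀(k, ε)`, all primes `q ≤ N` and all real `t`, for all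
residues `b` modulo `q` with at most `2 q^(2/k) N^(-2ε)` exceptions the inequality of `H_k(1/k)` (with
this `q` and constant `1`) holds at `t + b/q` for all real `ξ`, even with an arbitrary integer
polynomial `h(n)/q` of degree less than `k` added to the argument and for the sums over all
subintervals of `[1, N]`. -/
theorem result :
    (∀ k : ℕ, 2 ≤ k → ∀ η : ℝ, 0 ≤ η → η ≤ 1 / 4 → ∀ ε : ℝ, 0 < ε → ∃ N₀ : ℕ, ∀ N : ℕ, N₀ ≤ N →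
      ∀ q : ℕ, q.Prime → (q : ℝ) ≤ (N : ℝ) ^ (2 - 4 * η) → ∀ c : ℕ → ℂ, (∀ n, ‖c n‖ ≤ 1) →
      (({b : ℕ | b < q ∧ ∃ h : ℤ[X], h.natDegree < k ∧ ∃ (ξ : ℝ) (u v : ℕ), v ≤ N ∧
        (N : ℝ) ^ (1 + ε) * (max (1 / (q : ℝ)) (1 / (N : ℝ))) ^ η <
        ‖∑ n ∈ Finset.Ioc u v, c n * Complex.exp (2 * (Real.pi : ℂ) * Complex.I *
          ((((b : ℝ) * (n : ℝ) ^ k + ((h.eval (n : ℤ) : ℤ) : ℝ)) / (q : ℝ) + ξ * (n : ℝ) : ℝ) :
            ℂ))‖}.ncard : ℕ) : ℝ) ≤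
        2 * (min (q : ℝ) (N : ℝ)) ^ (2 * η) / (N : ℝ) ^ (2 * ε)) ∧
    (∀ k : ℕ, 4 ≤ k → ∀ ε : ℝ, 0 < ε → ∃ N₀ : ℕ, ∀ N : ℕ, N₀ ≤ N →
      ∀ q : ℕ, q.Prime → q ≤ N → ∀ t : ℝ,
      (({b : ℕ | b < q ∧ ∃ h : ℤ[X], h.natDegree < k ∧ ∃ (ξ : ℝ) (u v : ℕ), v ≤ N ∧
        (N : ℝ) ^ (1 + ε) * (1 / (q : ℝ) + 1 / (N : ℝ) + (q : ℝ) / (N : ℝ) ^ k) ^ (1 / (k : ℝ)) <
        ‖∑ n ∈ Finset.Ioc u v, Complex.exp (2 * (Real.pi : ℂ) * Complex.I *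
          (((t + (b : ℝ) / (q : ℝ)) * (n : ℝ) ^ k + ((h.eval (n : ℤ) : ℤ) : ℝ) / (q : ℝ) +
            ξ * (n : ℝ) : ℝ) : ℂ))‖}.ncard : ℕ) : ℝ) ≤
        2 * (q : ℝ) ^ (2 / (k : ℝ)) / (N : ℝ) ^ (2 * ε)) := by
  have h1 : ∀ k : ℕ, 2 ≤ k → ∀ η : ℝ, 0 ≤ η → η ≤ 1 / 4 → ∀ ε : ℝ, 0 < ε → ∃ N₀ : ℕ,
      ∀ N : ℕ, N₀ ≤ N → ∀ q : ℕ, q.Prime → (q : ℝ) ≤ (N : ℝ) ^ (2 - 4 * η) →
      ∀ c : ℕ → ℂ, (∀ n, ‖c n‖ ≤ 1) →
      (({b : ℕ | b < q ∧ ∃ h : ℤ[X], h.natDegree < k ∧ ∃ (ξ : ℝ) (u v : ℕ), v ≤ N ∧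
        (N : ℝ) ^ (1 + ε) * (max (1 / (q : ℝ)) (1 / (N : ℝ))) ^ η <
        ‖∑ n ∈ Finset.Ioc u v, c n * Complex.exp (2 * (Real.pi : ℂ) * Complex.I *
          ((((b : ℝ) * (n : ℝ) ^ k + ((h.eval (n : ℤ) : ℤ) : ℝ)) / (q : ℝ) + ξ * (n : ℝ) : ℝ) :
            ℂ))‖}.ncard : ℕ) : ℝ) ≤
        2 * (min (q : ℝ) (N : ℝ)) ^ (2 * η) / (N : ℝ) ^ (2 * ε) := by
    intro k hk η hη0 hη ε hε
    obtain ⟨N₀, h⟩ := Pool.Agent.Y951.MW.montgomery hk hη0 hη hε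
    refine ⟨N₀, fun N hN q hq hqN c hc => ?_⟩
    have := h N hN q hq hqN c hc
    simp only [Pool.Agent.Y951.MW.e_eq] at this
    exact this
  refine ⟨h1, ?_⟩
  intro k hk ε hε
  have hkR : (4 : ℝ) ≤ k := by exact_mod_cast hk
  have hk0 : (0 : ℝ) < k := by linarith
  obtain ⟨N₀, h⟩ := h1 k (by omega) (1 / k) (by positivity) (by
    rw [div_le_div_iff₀ hk0 (by norm_num)]; linarith) ε hε
  refine ⟨max N₀ 1, fun N hN q hq hqN t => ?_⟩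
  have hN1 : 1 ≤ N := le_trans (le_max_right _ _) hN
  have hNR : (1 : ℝ) ≤ N := by exact_mod_cast hN1
  have hN0 : (0 : ℝ) < N := by linarith
  have hqR : (0 : ℝ) < q := by exact_mod_cast hq.pos
  have hqNR : (q : ℝ) ≤ N := by exact_mod_cast hqN
  have h2 := h N (le_trans (le_max_left _ _) hN) q hq (by
    refine hqNR.trans ?_
    conv_lhs => rw [← Real.rpow_one (N : ℝ)]
    refine Real.rpow_le_rpow_of_exponent_le hNR ?_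
    have : (1 : ℝ) / k ≤ 1 / 4 := one_div_le_one_div_of_le (by norm_num) hkR
    linarith) (fun n => Complex.exp (2 * (Real.pi : ℂ) * Complex.I * ((t * (n : ℝ) ^ k : ℝ) : ℂ)))
    (fun n => by
      have e : 2 * (Real.pi : ℂ) * Complex.I * ((t * (n : ℝ) ^ k : ℝ) : ℂ) =
        ((2 * Real.pi * (t * (n : ℝ) ^ k) : ℝ) : ℂ) * Complex.I := by
        push_cast; ring
      rw [e, Complex.norm_exp_ofReal_mul_I])
  have hmin : min (q : ℝ) (N : ℝ) = q := min_eq_left hqNR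
  rw [hmin] at h2
  have e2 : (2 : ℝ) * (1 / (k : ℝ)) = 2 / k := by ring
  rw [e2] at h2
  refine le_trans ?_ h2
  have hfin : {b : ℕ | b < q ∧ ∃ h : ℤ[X], h.natDegree < k ∧ ∃ (ξ : ℝ) (u v : ℕ), v ≤ N ∧
        (N : ℝ) ^ (1 + ε) * (max (1 / (q : ℝ)) (1 / (N : ℝ))) ^ (1 / (k : ℝ)) <
        ‖∑ n ∈ Finset.Ioc u v, Complex.exp (2 * (Real.pi : ℂ) * Complex.I *
          ((t * (n : ℝ) ^ k : ℝ) : ℂ)) * Complex.exp (2 * (Real.pi : ℂ) * Complex.I *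
          ((((b : ℝ) * (n : ℝ) ^ k + ((h.eval (n : ℤ) : ℤ) : ℝ)) / (q : ℝ) + ξ * (n : ℝ) : ℝ) :
            ℂ))‖}.Finite := (Set.finite_Iio q).subset fun b hb => hb.1
  refine Nat.cast_le.2 (Set.ncard_le_ncard ?_ hfin)
  rintro b ⟨hb, g, hg, ξ, u, v, hv, hlt⟩
  refine ⟨hb, g, hg, ξ, u, v, hv, ?_⟩
  have hbase : max (1 / (q : ℝ)) (1 / (N : ℝ)) ≤
      1 / (q : ℝ) + 1 / (N : ℝ) + (q : ℝ) / (N : ℝ) ^ k := by
    have a1 : 0 ≤ 1 / (q : ℝ) := by positivity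
    have a2 : 0 ≤ 1 / (N : ℝ) := by positivity
    have a3 : 0 ≤ (q : ℝ) / (N : ℝ) ^ k := by positivity
    exact max_le (by linarith) (by linarith)
  have h3 : (max (1 / (q : ℝ)) (1 / (N : ℝ))) ^ (1 / (k : ℝ)) ≤
      (1 / (q : ℝ) + 1 / (N : ℝ) + (q : ℝ) / (N : ℝ) ^ k) ^ (1 / (k : ℝ)) :=
    Real.rpow_le_rpow (le_max_of_le_left (by positivity)) hbase (by positivity)
  refine lt_of_le_of_lt (mul_le_mul_of_nonneg_left h3 (by positivity)) (lt_of_lt_of_le hlt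
    (le_of_eq ?_))
  congr 1
  refine Finset.sum_congr rfl fun n _ => ?_
  rw [← Complex.exp_add]
  congr 1
  push_cast
  field_simp
  ring

end Pool.Agent.Results.MP_3b0be2_nt.EachPrimeModulus
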