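import Pool.Agent.X17.HW.Fin

/-!
# Montgomery's conjecture on Weyl sums: the exceptional leading coefficients

For the pair of degrees `1, k`, iterated Weyl differencing against a sharp bound in six variables gives mean values in
`2^i + 2` variables with the saving `i + 1`, for all `2 ≤ i ≤ k`. Together with a maximal inequality over `N` and
over the linear coefficient, local constancy at scale `N^(-k)` and a covering argument this bounds the Hausdorff
dimension of the set of leading coefficients `t` at which the inequality of `H_k(η)` fails for some linear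
coefficient `ξ`, uniformly in `ξ`.
-/

set_option autoImplicit false

open MeasureTheory

namespace Pool.Agent.Results.MP_3b0be2_nt.ExceptionalLeadingCoefficients

/-- The inequality of `H_k(η)` at the leading coefficient `t` and at `N`, with constant `C`, for all real `ξ` and all
`q ≥ 1` at once: `|∑_{n ≤ N} e(t n^k + ξ n)| ≤ C N^(1+ε) (1/q + 1/N + q/N^k)^η`. -/
def Ineq (k N : ℕ) (η ε C t : ℝ) : Prop :=
  ∀ q : ℕ, 1 ≤ q → ∀ ξ : ℝ,
    ‖∑ n ∈ Finset.Icc 1 N,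
        Complex.exp (2 * (Real.pi : ℂ) * Complex.I * (((t * (n : ℝ) ^ k + ξ * (n : ℝ)) : ℝ) : ℂ))‖ ≤
      C * (N : ℝ) ^ (1 + ε) * (1 / (q : ℝ) + 1 / (N : ℝ) + (q : ℝ) / (N : ℝ) ^ k) ^ η

/-- Let `k ≥ 3`.

**(1)** Let `2 ≤ i ≤ k`, `0 ≤ η ≤ 1` and `ε ≥ 0`. The set of real `t` for which no constant `C` makes
`Ineq k N η ε C t` true for all `N ≥ 1` has Hausdorff dimension at most `1 - (i - (2^i + 2)(η - ε)) / k`. (The case
`ε = 0` contains the set of `t` at which the inequality fails for at least one `ε > 0`; at `η = 1/k` the choice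
`i = ⌊log₂ k⌋` gives at most `1 - (⌊log₂ k⌋ - 1 - 2/k) / k < 1` for `k ≥ 4`, even with `ε = 0`.)

**(2)** For `0 ≤ η ≤ 1/3` almost every real `t` has, for every `ε > 0`, a constant `C` such that `Ineq k N η ε C t`
holds for all `N ≥ 1`.

**(3)** Let `2 ≤ i ≤ k`, `η ≥ 0`, `ε` real, `ρ > 0`. For some `C` and all `N ≥ 1`, the set of `t` in `[0,1]` with
`¬ Ineq k N η ε 1 t` has measure at most `C N^((2^i + 2)(η - ε) - i + ρ)`. -/
theorem result : ∀ k : ℕ, 3 ≤ k →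
    (∀ i : ℕ, 2 ≤ i → i ≤ k → ∀ η ε : ℝ, 0 ≤ η → η ≤ 1 → 0 ≤ ε →
      dimH {t : ℝ | ¬ ∃ C : ℝ, ∀ N : ℕ, 1 ≤ N → Ineq k N η ε C t} ≤
        ENNReal.ofReal (1 - (i - (2 ^ i + 2) * (η - ε)) / k)) ∧
    (∀ η : ℝ, 0 ≤ η → η ≤ 1 / 3 →
      ∀ᵐ t : ℝ, ∀ ε : ℝ, 0 < ε → ∃ C : ℝ, ∀ N : ℕ, 1 ≤ N → Ineq k N η ε C t) ∧
    (∀ i : ℕ, 2 ≤ i → i ≤ k → ∀ η ε ρ : ℝ, 0 ≤ η → 0 < ρ → ∃ C : ℝ, ∀ N : ℕ, 1 ≤ N →
      volume {t : ℝ | t ∈ Set.Icc (0 : ℝ) 1 ∧ ¬ Ineq k N η ε 1 t} ≤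
        ENNReal.ofReal (C * (N : ℝ) ^ ((2 ^ i + 2) * (η - ε) - i + ρ))) := by
  intro k hk
  have key : ∀ η ε C t : ℝ, Pool.Agent.X17.HW.HoldsT k η ε C t ↔ ∀ N : ℕ, 1 ≤ N → Ineq k N η ε C t := by
    intro η ε C t
    constructor
    · intro h N hN q hq ξ
      exact h N q hN hq ξ
    · intro h N q hN hq ξ
      exact h N hN q hq ξ
  refine ⟨?_, ?_, ?_⟩
  · intro i hi hik η ε hη hη1 hε
    have h := Pool.Agent.X17.HW.dim_T k i hi hik η ε hη hη1 hε
    simp only [key] at h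
    exact h
  · intro η hη hη1
    have h := Pool.Agent.X17.HW.ae_T k (by omega) η hη hη1
    simp only [key] at h
    exact h
  · intro i hi hik η ε ρ hη hρ
    exact Pool.Agent.X17.HW.meas_T k i hi hik η ε ρ hη hρ

end Pool.Agent.Results.MP_3b0be2_nt.ExceptionalLeadingCoefficients
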