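import Pool.Agent.X17.HW.SliceB

/-!
# Montgomery's conjecture on Weyl sums: the exceptional pairs `(t, ξ)`

The Hausdorff dimension in the plane of the set of pairs `(t, ξ)` at which the inequality of `H_k(η)` fails, from mean
values for the pair of degrees `1, k` in `2^i + 2` variables, a maximal inequality over `N` in the plane and local
constancy at scale `N^(-k)`; and the dimension of its sections by the lines on which `ξ` is constant, from Hua's
inequality.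
-/

set_option autoImplicit false

open MeasureTheory

namespace Pool.Agent.Results.MP_3b0be2_nt.ExceptionalPairs

/-- The inequality of `H_k(η)` at the point `(t, ξ)` and at `N`, with constant `C`, for all `q ≥ 1` at once:
`|∑_{n ≤ N} e(t n^k + ξ n)| ≤ C N^(1+ε) (1/q + 1/N + q/N^k)^η`. -/
def Ineq (k N : ℕ) (η ε C t ξ : ℝ) : Prop :=
  ∀ q : ℕ, 1 ≤ q →
    ‖∑ n ∈ Finset.Icc 1 N,
        Complex.exp (2 * (Real.pi : ℂ) * Complex.I * (((t * (n : ℝ) ^ k + ξ * (n : ℝ)) : ℝ) : ℂ))‖ ≤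
      C * (N : ℝ) ^ (1 + ε) * (1 / (q : ℝ) + 1 / (N : ℝ) + (q : ℝ) / (N : ℝ) ^ k) ^ η

/-- Let `k ≥ 3`, `0 ≤ η ≤ 1` and `ε ≥ 0`; `ε = 0` is allowed. Let `E` be the set of pairs `(t, ξ)` of real numbers
for which no constant `C` makes `Ineq k N η ε C t ξ` true for all `N ≥ 1`.

**(1)** For `2 ≤ i ≤ k`, `E` has Hausdorff dimension at most `2 - (i + 1 - (2^i + 2)(η - ε)) / k`.

**(2)** For `1 ≤ j ≤ k` and every real `ξ`, the set of the `t` with `(t, ξ)` in `E` has Hausdorff dimension at most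
`1 - (j - 2^j (η - ε)) / k`.

For `k = 3` and `η = 1/3` these are `5/3 - 2ε` and `7/9 - 4ε/3`. -/
theorem result : ∀ k : ℕ, 3 ≤ k → ∀ η ε : ℝ, 0 ≤ η → η ≤ 1 → 0 ≤ ε →
    (∀ i : ℕ, 2 ≤ i → i ≤ k →
      dimH {z : ℝ × ℝ | ¬ ∃ C : ℝ, ∀ N : ℕ, 1 ≤ N → Ineq k N η ε C z.1 z.2} ≤
        ENNReal.ofReal (2 - (i + 1 - (2 ^ i + 2) * (η - ε)) / k)) ∧
    (∀ j : ℕ, 1 ≤ j → j ≤ k → ∀ ξ : ℝ,
      dimH {t : ℝ | ¬ ∃ C : ℝ, ∀ N : ℕ, 1 ≤ N → Ineq k N η ε C t ξ} ≤
        ENNReal.ofReal (1 - (j - 2 ^ j * (η - ε)) / k)) := by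
  intro k hk η ε hη hη1 hε
  have key : ∀ (C : ℝ) (z : ℝ × ℝ), Pool.Agent.X17.HW.HoldsP k η ε C z ↔
      ∀ N : ℕ, 1 ≤ N → Ineq k N η ε C z.1 z.2 := by
    intro C z
    constructor
    · intro h N hN q hq
      exact h N q hN hq
    · intro h N q hN hq
      exact h N hN q hq
  constructor
  · intro i hi hik
    have h := Pool.Agent.X17.HW.dim_P k i hi hik η ε hη hη1 hε
    simp only [key] at h
    exact h
  · intro j hj hjk ξ
    have h := Pool.Agent.X17.HW.dim_F k j hj hjk ξ η ε hη hη1 hε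
    simp only [key] at h
    exact h

end Pool.Agent.Results.MP_3b0be2_nt.ExceptionalPairs
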